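import Pool.Agent.H.MP_377342_al.Core

set_option autoImplicit false
set_option maxHeartbeats 400000

namespace Pool.Agent.Results.MP_377342_al.Extend

open Matrix Quaternion

/-- `L` is `A`-invariant, contains `N` and is maximal among the subspaces on which `P` holds. -/
def MaxExt {n : ℕ} (A : Matrix (Fin n) (Fin n) ℍ) (N : Submodule ℍᵐᵒᵖ (Fin n → ℍ))
    (P : (Fin n → ℍ) → Prop) (L : Submodule ℍᵐᵒᵖ (Fin n → ℍ)) : Prop :=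
  N ≤ L ∧ (∀ x ∈ L, A *ᵥ x ∈ L) ∧ Maximal (fun M : Submodule ℍᵐᵒᵖ (Fin n → ℍ) => ∀ x ∈ M, P x) L

theorem result {n : ℕ} (H A : Matrix (Fin n) (Fin n) ℍ) (hH : Hᴴ = -H) (hA : H * A = -(Aᴴ * H))
    (N : Submodule ℍᵐᵒᵖ (Fin n → ℍ)) (hN : ∀ x ∈ N, A *ᵥ x ∈ N)
    (hN' : ∀ x ∈ N, ∀ y ∈ N, star x ⬝ᵥ (H * A) *ᵥ y = 0) :
    (∃ L, MaxExt A N (fun x => 0 ≤ (star x ⬝ᵥ (H * A) *ᵥ x).re) L) ∧
      ∃ L, MaxExt A N (fun x => (star x ⬝ᵥ (H * A) *ᵥ x).re ≤ 0) L := by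
  have h1 : (H * A)ᴴ = H * A := by rw [conjTranspose_mul, hH, Matrix.mul_neg, hA]
  have h2 : H * A * A = -(Aᴴ * (H * A)) := by
    rw [← Matrix.mul_assoc, ← Matrix.neg_mul, ← hA]
  refine ⟨Pool.Agent.H.MP_377342_al.mat _ A h1 h2 N fun x hx => ⟨hN x hx, by simp [hN' x hx x hx]⟩, ?_⟩
  simpa [neg_mulVec, MaxExt] using Pool.Agent.H.MP_377342_al.mat (-(H * A)) A (by simp only [conjTranspose_neg, h1])
    (by rw [Matrix.neg_mul, h2, Matrix.mul_neg]) N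
    fun x hx => ⟨hN x hx, by simp [neg_mulVec, hN' x hx x hx]⟩

end Pool.Agent.Results.MP_377342_al.Extend
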